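import Pool.Agent.Helper632.AAR.FinPres
import Pool.Agent.Helper632.AAR.Unique
import Pool.Agent.Helper632.AAR.TrivRed

namespace Pool.Agent.Results.MP_d956e6_al.DecideForPresentedGroup

open Pool.Agent.Helper632.AAR

/-- Recognising asynchronous automatic structures, with finite presentations. -/
theorem result :
    -- (1) an algorithm which, given automata `d`, finds out that they are not an asynchronous
    -- automatic structure of any group, or outputs relators of a finite presentation on the
    -- alphabet of a group for which they are one
    (∃ g : Data → Option (List (List (Bool × ℕ))), Computable g ∧ ∀ d : Data,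
      (g d = none → ¬ (DWF d ∧ ∃ (G : Type) (_ : Group G) (π : ℕ → G), IsStructure G π d)) ∧
      ∀ R, g d = some R → DWF d ∧ IsStructure (PGrp (d.1, R)) (pgen (d.1, R)) d) ∧
    -- (2) the group is determined by the automata
    (∀ (d : Data) (G H : Type) (_ : Group G) (_ : Group H) (π : ℕ → G) (ρ : ℕ → H), DWF d →
      IsStructure G π d → IsStructure H ρ d → ∃ e : G ≃* H, ∀ a < d.1, e (π a) = ρ a) ∧
    -- (3) an algorithm which, given a finite presentation `P` and automata `d`, says no or
    -- outputs finitely many words such that `d` is a structure for the presented group if and only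
    -- if all these words are trivial in it
    (∃ f : Pres × Data → Option (List (List (Bool × ℕ))), Computable f ∧ ∀ (P : Pres) (d : Data),
      (d.1 = P.1 ∧ DWF d ∧ IsStructure (PGrp P) (pgen P) d) ↔
        ∃ R, f (P, d) = some R ∧ ∀ w ∈ R, wval (pgen P) w = 1) ∧
    -- (4) one algorithm which is correct for all presentations in which the relations `u x = v`,
    -- `(u, v) ∈ L(M_x)`, of the given automata hold
    (∃ C : Pres × Data → Prop, ComputablePred C ∧ ∀ (P : Pres) (d : Data),
      (∀ x, InA d.1 x → ∀ u v : List ℕ, ALang (mult d x) u v →
        val (pgen P) u * gen (pgen P) x = val (pgen P) v) →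
      (C (P, d) ↔ d.1 = P.1 ∧ DWF d ∧ IsStructure (PGrp P) (pgen P) d)) ∧
    -- (5) for every finite presentation there is an algorithm which is correct for all automata
    (∀ P : Pres, ComputablePred fun d : Data =>
      d.1 = P.1 ∧ DWF d ∧ IsStructure (PGrp P) (pgen P) d) ∧
    -- (6) one algorithm correct for all presentations and all automata would decide which finite
    -- presentations present the trivial group
    ((ComputablePred fun y : Pres × Data =>
        y.2.1 = y.1.1 ∧ DWF y.2 ∧ IsStructure (PGrp y.1) (pgen y.1) y.2) →
      ComputablePred fun P : Pres => ∀ g : PGrp P, g = 1) := by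
  refine ⟨?_, ?_, ?_, ?_, ?_, ?_⟩
  · obtain ⟨g, hg, h⟩ := compute_presentation
    exact ⟨g, hg, fun d => ⟨(h d).1, fun R hR => ((h d).2 R hR).2⟩⟩
  · intro d G H _ _ π ρ hd hs hs'
    exact unique_group hd hs hs'
  · obtain ⟨f, hf, h⟩ := reduce_to_wp
    exact ⟨f, hf, fun P d => h P d⟩
  · refine ⟨QuotP, computable_quotP, ?_⟩
    intro P d hsound
    exact ⟨fun h => isStrP_of_quotP h hsound, fun h => quotP_of_isStrP h⟩
  · exact fun P => computable_fixed P
  · exact triviality_reduction

end Pool.Agent.Results.MP_d956e6_al.DecideForPresentedGroup
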