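import Pool.Agent.Helper632.AAR.Main

namespace Pool.Agent.Results.MP_d956e6_al.DecideStructure

open Pool.Agent.Helper632.AAR

/-- There is an algorithm which decides, for a finite state automaton `W` and asynchronous
automata `M_x`, `x ∈ A ∪ {ε}`, over a finite alphabet `A`, whether they form an asynchronous
automatic structure (of some group generated by `A`). -/
theorem result : ComputablePred fun d : Data =>
    DWF d ∧ ∃ (G : Type) (_ : Group G) (π : ℕ → G), IsStructure G π d :=
  computable_isStr

end Pool.Agent.Results.MP_d956e6_al.DecideStructure
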